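import Pool.Agent.Helper26.DW.ML
import Pool.Agent.Helper33.DP.Sheet

/-!
MP_fcb106_co (polynomial upper bound), row ML.
-/

set_option autoImplicit false
noncomputable section
namespace Pool.Agent.Helper26.PL

open Pool.Agent.Helper33.DP

/-- **ROW ML** -/
theorem ML : ST_ML := by
  intro ι V _ _ _ _ Z φ β β' hZ hφ hb H
  have hne : Z.Nonempty := by
    obtain ⟨z, hz, -⟩ := H (fun _ => (Fintype.card ι : ℝ)⁻¹) (fun _ => by positivity) (by
      rw [Finset.sum_const, Finset.card_univ, nsmul_eq_mul]
      exact mul_inv_cancel₀ (by exact_mod_cast Fintype.card_ne_zero))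
    exact ⟨z, hz⟩
  exact Pool.Agent.Helper26.DW.minimax hZ hne hφ hb H

end Pool.Agent.Helper26.PL
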