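import Pool.Agent.Helper26.PL.PD

/-!
MP_fcb106_co (polynomial upper bound), row PA5: the sets of the colours are computable.
-/

set_option autoImplicit false
noncomputable section
namespace Pool.Agent.Helper26.PL

open Finset
open Pool.Agent.Helper33.DP

theorem colour_prim (w N : ℕ) (c : Fin N) :
    PrimrecRel (fun (l : Lev w N) (n : ℕ) => ∃ i, l.1 i = n ∧ l.2 c = some i) := by
  classical
  have hp : Primrec (fun x : Lev w N × ℕ =>
      ((fun i : Fin w => decide (x.1.1 i = x.2)), x.1.2 c)) := by
    refine Primrec.pair ?_ ?_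
    · refine Primrec.fin_curry.2 (Primrec₂.swap (Primrec.fin_curry₁.2 fun i => ?_))
      exact (Primrec.eq (α := ℕ)).decide.comp
        ((Primrec.fin_app (σ := ℕ)).comp (Primrec.fst.comp Primrec.fst) (Primrec.const i))
        Primrec.snd
    · exact (Primrec.fin_app (σ := Option (Fin w))).comp (Primrec.snd.comp Primrec.fst)
        (Primrec.const c)
  have hd := (Primrec.dom_finite (fun y : (Fin w → Bool) × Option (Fin w) =>
    decide (∃ i, y.1 i = true ∧ y.2 = some i))).comp hp
  refine ⟨fun _ => Classical.propDecidable _, hd.of_eq fun x => ?_⟩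
  simp

/-- **ROW PA5** -/
theorem PA5 : ST_PA5 := by
  classical
  intro w N A c f hA hf
  have h1 := (colour_prim w N c).exists_mem_list
  have h2 : Computable (fun n : ℕ => decide (∃ l ∈ f (n + 1), ∃ i, l.1 i = n ∧ l.2 c = some i)) :=
    ((h1.decide.to_comp).comp (hf.comp Computable.succ) Computable.id).of_eq fun n => by
      simp
  obtain ⟨dA, hA⟩ := hA
  refine ⟨fun _ => Classical.propDecidable _, ?_⟩
  have h3 := (Primrec.and.to_comp).comp hA h2
  refine h3.of_eq fun n => ?_
  simp

end Pool.Agent.Helper26.PL
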