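import Pool.Agent.Helper26.PL.PD

/-!
MP_fcb106_co (polynomial upper bound), row PARTA: assembly.
-/

set_option autoImplicit false
noncomputable section
namespace Pool.Agent.Helper26.PL

open Finset
open Pool.Agent.Helper33.DP

/-- a computable poset of width at most `w` -/
theorem po_of {P : Set ℕ} {le : ℕ → ℕ → Prop} {w : ℕ}
    (h : Pool.Agent.Helper3.DW.IsCompPoset P le) (hw : WLe P le w) : PO P le w where
  sub := h.sub
  refl := h.refl
  trans := h.trans
  antisymm := h.antisymm
  width := fun s h1 h2 => hw s h1 h2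

/-- levels stay -/
theorem mem_upd {w N : ℕ} {Good : Gr w → (Fin w → Fin w → ℕ) → Prop} {P A : Set ℕ}
    {le : ℕ → ℕ → Prop} {s : St w N} {n : ℕ} {b : Ch w N} (h : R Good P A le s n b)
    {l : Lev w N} (hl : l ∈ s) : l ∈ upd A s n b := by
  unfold upd
  split_ifs with hn
  · obtain ⟨e, -⟩ := h hn
    rw [e] at hl
    simp only [List.mem_append, List.mem_cons] at hl ⊢
    tauto
  · exact hl

/-- **PARTA** -/
theorem PARTA (hS : ST_SRCH) (hC : ST_CORE) (h1 : ST_PA1a) (h2 : ST_PA1b) (h3 : ST_PA2)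
    (h4 : ST_PA3) (h5 : ST_PA4a) (h6 : ST_PA4b) (h7 : ST_PA5) : ST_PARTA := by
  intro w N Good P A le bot top hw hSt hP hW hAP hA hM hb ht hbt hn
  have po := po_of hP hW
  obtain ⟨p, q, hI0⟩ := h4 w N Good P le bot top hw hSt po hb ht hbt
  -- one step
  have hex : ∀ (n : ℕ) (s : St w N), Inv Good P le bot top s → ∃ b, R Good P A le s n b := by
    intro n s hI
    by_cases hnA : n ∈ A
    · obtain ⟨M, hMa, hMn⟩ := hM n hnA
      obtain ⟨t, t', l, l', e, ha, hb'⟩ :=
        h1 w N Good P le bot top s n po hI (hAP hnA) (hn n hnA).1 (hn n hnA).2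
      have hl : l ∈ s := by rw [e]; simp
      have hl' : l' ∈ s := by rw [e]; simp
      have hbef : Bef le l l' := by
        have := hI.ord
        rw [e, List.pairwise_append] at this
        exact (List.pairwise_cons.1 this.2.1).1 l' (by simp)
      have hnb : Nb Good le l l' := by
        have := hI.nb
        rw [e] at this
        exact (List.isChain_cons_cons.1 (List.isChain_append.1 this).2.1).1
      obtain ⟨X, hX⟩ := h2 w N Good P le M n l l' po hSt (hI.an l hl) (hI.an l' hl') hMa hMn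
        hbef.bel ha hb' hnb
      exact ⟨(t, l, X, l', t'), fun _ => ⟨e, hX⟩⟩
    · exact ⟨(s, (bot, p), (bot, p), (bot, p), s), fun h => absurd h hnA⟩
  have hpr : ∀ (n : ℕ) (s : St w N) (b : Ch w N), Inv Good P le bot top s →
      R Good P A le s n b → Inv Good P le bot top (upd A s n b) := by
    intro n s b hI hR
    unfold upd
    split_ifs with hnA
    · obtain ⟨e, hQ⟩ := hR hnA
      rw [e] at hI
      exact h3 w N Good P le bot top n b.1 b.2.2.2.2 b.2.1 b.2.2.1 b.2.2.2.1 po hI hQ
    · exact hI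
  obtain ⟨f, hf, hf0, hfs⟩ := hS (St w N) (Ch w N) (R Good P A le) (upd A)
    [(bot, p), (top, q)] (fun _ s => Inv Good P le bot top s) (h5 w N Good P A le hP hA)
    (h6 w N A hA) hI0 (fun n s hI => hex n s hI) (fun n s b hI hR => hpr n s b hI hR)
  -- levels stay
  have hmono : ∀ m n l, m ≤ n → l ∈ f m → l ∈ f n := by
    intro m n l hmn hl
    induction n, hmn using Nat.le_induction with
    | base => exact hl
    | succ n _ ih =>
      obtain ⟨-, b, hR, e⟩ := hfs n
      rw [e]
      exact mem_upd hR ih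
  have hpw : ∀ n l l', l ∈ f n → l' ∈ f n → l = l' ∨ Bef le l l' ∨ Bef le l' l := by
    intro n l l' hl hl'
    have hI := (hfs n).1
    by_cases e : l = l'
    · exact Or.inl e
    · right
      have := List.pairwise_iff_getElem.1 hI.ord
      obtain ⟨i, hi, rfl⟩ := List.getElem_of_mem hl
      obtain ⟨j, hj, rfl⟩ := List.getElem_of_mem hl'
      rcases lt_trichotomy i j with h | h | h
      · exact Or.inl (this i j hi hj h)
      · subst h; exact absurd rfl e
      · exact Or.inr (this j i hj hi h)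
  refine ⟨fun c => {n : ℕ | n ∈ A ∧ ∃ l ∈ f (n + 1), ∃ i, l.1 i = n ∧ l.2 c = some i}, fun c =>
    ⟨fun n hn' => hn'.1, h7 w N A c f hA hf, ?_⟩, ?_⟩
  · rintro a ⟨haA, l, hl, i, hi, hc⟩ b ⟨hbA, l', hl', j, hj, hc'⟩
    have g := hmono _ (max a b + 1) l (by omega) hl
    have g' := hmono _ (max a b + 1) l' (by omega) hl'
    rcases hpw _ l l' g g' with e | e | e
    · subst e
      rw [hc] at hc'
      obtain rfl := Option.some.inj hc'
      rw [hi] at hj
      subst hj
      exact Or.inl (hP.refl a (hAP haA))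
    · have := e.ch c i j hc hc'
      rw [hi, hj] at this
      exact Or.inl this
    · have := e.ch c j i hc' hc
      rw [hi, hj] at this
      exact Or.inr this
  · intro n hnA
    obtain ⟨hI, b, hR, e⟩ := hfs n
    obtain ⟨e1, hQ⟩ := hR hnA
    obtain ⟨i, hi⟩ := hQ.mem
    have hl : b.2.1 ∈ f n := by rw [e1]; simp
    have hcore : IsCore (core le b.2.1.1 b.2.2.1.1) :=
      hC w P le _ _ po (hI.an _ hl) hQ.an hQ.b1
    obtain ⟨σ, hσ⟩ := hcore.ex
    have hm : (σ.symm i, i) ∈ core le b.2.1.1 b.2.2.1.1 := by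
      have := hσ (σ.symm i)
      rwa [Equiv.apply_symm_apply] at this
    have hpos := hSt.pos _ _ hcore hQ.g1 _ _ hm
    obtain ⟨c, hc⟩ := Finset.card_pos.1 (lt_of_lt_of_le Nat.one_pos hpos)
    rw [Finset.mem_filter] at hc
    rw [Set.mem_iUnion]
    refine ⟨c, hnA, b.2.2.1, ?_, i, hi, hc.2.2⟩
    rw [e]
    unfold upd
    rw [if_pos hnA]
    simp

end Pool.Agent.Helper26.PL
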