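import Pool.Agent.Helper33.DP.Sheet

/-!
MP_fcb106_co (polynomial upper bound), row PARTA: the state of the algorithm, one step, the
invariant, and the statements of the sub-rows.
-/

set_option autoImplicit false
noncomputable section
namespace Pool.Agent.Helper26.PL

open Finset
open Pool.Agent.Helper33.DP

/-- A level: its points, and the position of every colour. -/
abbrev Lev (w N : ℕ) := (Fin w → ℕ) × (Fin N → Option (Fin w))

/-- A state: the list of the levels, from the bottom to the top. -/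
abbrev St (w N : ℕ) := List (Lev w N)

/-- The choice in a step: the levels below, the lower level, the new level, the upper level, the
levels above. -/
abbrev Ch (w N : ℕ) := St w N × Lev w N × Lev w N × Lev w N × St w N

/-- The new level `X` is right for the point `n`, between the levels `l` and `l'`. -/
structure Q {w N : ℕ} (Good : Gr w → (Fin w → Fin w → ℕ) → Prop) (P : Set ℕ)
    (le : ℕ → ℕ → Prop) (n : ℕ) (l X l' : Lev w N) : Prop where
  an : Anti P le X.1
  mem : ∃ i, X.1 i = n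
  b1 : Bel le l.1 X.1
  b2 : Bel le X.1 l'.1
  nam : ∀ c x, X.2 c = some x → ∃ a b, l.2 c = some a ∧ l'.2 c = some b ∧
    (a, x) ∈ core le l.1 X.1 ∧ (x, b) ∈ core le X.1 l'.1
  g1 : Good (core le l.1 X.1) (cnt l.2 X.2)
  g2 : Good (core le X.1 l'.1) (cnt X.2 l'.2)

/-- The test of a step. -/
def R {w N : ℕ} (Good : Gr w → (Fin w → Fin w → ℕ) → Prop) (P A : Set ℕ)
    (le : ℕ → ℕ → Prop) (s : St w N) (n : ℕ) (b : Ch w N) : Prop :=
  n ∈ A → s = b.1 ++ b.2.1 :: b.2.2.2.1 :: b.2.2.2.2 ∧ Q Good P le n b.2.1 b.2.2.1 b.2.2.2.1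

open Classical in
/-- The update of the state. -/
def upd {w N : ℕ} (A : Set ℕ) (s : St w N) (n : ℕ) (b : Ch w N) : St w N :=
  if n ∈ A then b.1 ++ b.2.1 :: b.2.2.1 :: b.2.2.2.1 :: b.2.2.2.2 else s

/-- The level `l` is below the level `l'`, also along the colours. -/
structure Bef {w N : ℕ} (le : ℕ → ℕ → Prop) (l l' : Lev w N) : Prop where
  bel : Bel le l.1 l'.1
  ch : ∀ c a b, l.2 c = some a → l'.2 c = some b → le (l.1 a) (l'.1 b)

/-- Two neighbouring levels are in a good state. -/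
def Nb {w N : ℕ} (Good : Gr w → (Fin w → Fin w → ℕ) → Prop) (le : ℕ → ℕ → Prop)
    (l l' : Lev w N) : Prop := Good (core le l.1 l'.1) (cnt l.2 l'.2)

/-- The invariant. -/
structure Inv {w N : ℕ} (Good : Gr w → (Fin w → Fin w → ℕ) → Prop) (P : Set ℕ)
    (le : ℕ → ℕ → Prop) (bot top : Fin w → ℕ) (s : St w N) : Prop where
  an : ∀ l ∈ s, Anti P le l.1
  ord : s.Pairwise (Bef le)
  nb : s.IsChain (Nb Good le)
  ends : ∃ l l' : Lev w N, ∃ t : St w N, s = l :: (t ++ [l']) ∧ l.1 = bot ∧ l'.1 = top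

/-! ### the rows -/

/-- PA1a: the gap of a point. -/
def ST_PA1a : Prop :=
  ∀ (w N : ℕ) (Good : Gr w → (Fin w → Fin w → ℕ) → Prop) (P : Set ℕ) (le : ℕ → ℕ → Prop)
    (bot top : Fin w → ℕ) (s : St w N) (n : ℕ), PO P le w → Inv Good P le bot top s → n ∈ P →
    (∃ a, le (bot a) n) → (∃ b, le n (top b)) →
    ∃ (t t' : St w N) (l l' : Lev w N), s = t ++ l :: l' :: t' ∧ (∃ a, le (l.1 a) n) ∧
      ∃ b, le n (l'.1 b)

/-- PA1b: the new level. -/
def ST_PA1b : Prop :=
  ∀ (w N : ℕ) (Good : Gr w → (Fin w → Fin w → ℕ) → Prop) (P : Set ℕ) (le : ℕ → ℕ → Prop)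
    (M : Fin w → ℕ) (n : ℕ) (l l' : Lev w N), PO P le w → Strat w N Good →
    Anti P le l.1 → Anti P le l'.1 → Anti P le M → (∃ i, M i = n) → Bel le l.1 l'.1 →
    (∃ a, le (l.1 a) n) → (∃ b, le n (l'.1 b)) → Nb Good le l l' →
    ∃ X : Lev w N, Q Good P le n l X l'

/-- PA2: the invariant is kept. -/
def ST_PA2 : Prop :=
  ∀ (w N : ℕ) (Good : Gr w → (Fin w → Fin w → ℕ) → Prop) (P : Set ℕ) (le : ℕ → ℕ → Prop)
    (bot top : Fin w → ℕ) (n : ℕ) (t t' : St w N) (l X l' : Lev w N), PO P le w →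
    Inv Good P le bot top (t ++ l :: l' :: t') → Q Good P le n l X l' →
    Inv Good P le bot top (t ++ l :: X :: l' :: t')

/-- PA3: the start. -/
def ST_PA3 : Prop :=
  ∀ (w N : ℕ) (Good : Gr w → (Fin w → Fin w → ℕ) → Prop) (P : Set ℕ) (le : ℕ → ℕ → Prop)
    (bot top : Fin w → ℕ), 1 ≤ w → Strat w N Good → PO P le w → Anti P le bot → Anti P le top →
    (∀ i j, le (bot i) (top j)) →
    ∃ p q : Fin N → Option (Fin w), Inv Good P le bot top [(bot, p), (top, q)]

/-- PA4a: the test is computable. -/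
def ST_PA4a : Prop :=
  ∀ (w N : ℕ) (Good : Gr w → (Fin w → Fin w → ℕ) → Prop) (P A : Set ℕ) (le : ℕ → ℕ → Prop),
    Pool.Agent.Helper3.DW.IsCompPoset P le → ComputablePred (fun n : ℕ => n ∈ A) →
    ComputablePred (fun t : (St w N × ℕ) × Ch w N => R Good P A le t.1.1 t.1.2 t.2)

/-- PA4b: the update is computable. -/
def ST_PA4b : Prop :=
  ∀ (w N : ℕ) (A : Set ℕ), ComputablePred (fun n : ℕ => n ∈ A) →
    Computable (fun t : (St w N × ℕ) × Ch w N => upd A t.1.1 t.1.2 t.2)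

/-- PA5: the sets of the colours. -/
def ST_PA5 : Prop :=
  ∀ (w N : ℕ) (A : Set ℕ) (c : Fin N) (f : ℕ → St w N), ComputablePred (fun n : ℕ => n ∈ A) →
    Computable f → ComputablePred (fun n : ℕ => n ∈ {n : ℕ | n ∈ A ∧
      ∃ l ∈ f (n + 1), ∃ i, l.1 i = n ∧ l.2 c = some i})

end Pool.Agent.Helper26.PL
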